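import Pool.Agent.N658.TP.Stm
import Pool.Agent.Y738.PE.Univ

/-! # TP/Avg: averaged version of `main_G` -/

open scoped BigOperators ComplexConjugate Classical

noncomputable section

namespace Pool.Agent.N650.TP

open Pool.Agent.Y738.PE Pool.Agent.N658.TP

theorem arith (S T a c S1 : ℝ) (hS : 0 < S) (hT : 0 < T) (hc : c ≤ T) :
    S1 + c * (S / T - 2 * (a * S)) + (S - S1) ≤ 2 * (1 - a * c) * S := by
  have h1 : c * (S / T) ≤ T * (S / T) := mul_le_mul_of_nonneg_right hc (div_pos hS hT).le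
  have h2 : T * (S / T) = S := by field_simp
  have h3 : S1 + c * (S / T - 2 * (a * S)) + (S - S1) = c * (S / T) + S - 2 * (a * c) * S := by ring
  have h4 : 2 * (1 - a * c) * S = S + S - 2 * (a * c) * S := by ring
  rw [h3, h4]
  linarith

theorem avgMain : StmAvg := by
  intro d m M L r _ hd hm hM hr hL1 hL2 Φ hΦ Pos hPos T hT hTm hPT B hBc
  have hmL : m ≤ L := by
    have : m * 1 ≤ m * M := Nat.mul_le_mul_left m hM
    nlinarith
  have hrL : r ≤ L := by omega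
  set V : Finset (Til (m * M + 1) L) := (Finset.univ : Finset (Til (m * M + 1) L)).filter Valid
    with hV
  set W : Til (m * M + 1) L → ℝ := fun θ => nrm (glob m M Φ θ) with hWdef
  have hW0 : ∀ θ, 0 ≤ W θ := fun θ => nrm_nonneg _
  have hmemV : ∀ θ, θ ∈ V ↔ Valid θ := by
    intro θ; rw [hV, Finset.mem_filter]; simp
  obtain ⟨α, hα⟩ := Pool.Agent.Y794.PE.exist (m * M + 1) L (by omega) hL2
  have hWpos : ∀ θ ∈ V, 0 < W θ := fun θ hθ =>
    Pool.Agent.Y794.PE.nonzero d m M L hd hm hmL Φ hΦ θ ((hmemV θ).1 hθ)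
  have hSpos : 0 < ∑ θ ∈ V, W θ := by
    refine Finset.sum_pos hWpos ⟨(α, α), (hmemV _).2 ⟨hα, hα⟩⟩
  have hnrm : nrm (tot m M Φ L) = ∑ θ ∈ V, W θ :=
    nrm_tot Pool.Agent.Y562.PE.orth hm hM (by omega) Φ
  have hexp : expec (tot m M Φ L) 0 B = ∑ θ ∈ V, expec (glob m M Φ θ) 0 B :=
    expec_tot Pool.Agent.Y562.PE.orth hm hM hL1 Φ B
  refine ⟨by rw [hnrm]; exact hSpos, ?_⟩
  set pos : Til (m * M + 1) L → ℕ × ℕ := fun θ =>
    ((((θ.1 0).2 : ℕ) - 1) % m, (((θ.2 0).2 : ℕ) - 1) % m) with hpos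
  set bk : Til (m * M + 1) L → Prop := fun θ => Blk m M (θ.1 0).2 (θ.2 0).2 with hbk
  set K : ℝ := (((m * M + 2) ^ 2 : ℕ) : ℝ) with hKdef
  have hK : (0 : ℝ) < K := by rw [hKdef]; positivity
  set a : ℝ := ((M * (M - 1) : ℕ) : ℝ) / K with ha
  have ha0 : 0 ≤ a := by positivity
  -- weight of the tilings with position `p`
  set Sp : ℕ × ℕ → ℝ := fun p => ∑ θ ∈ V.filter (fun θ => bk θ ∧ pos θ = p), W θ with hSp
  set S := ∑ θ ∈ V, W θ with hSdef
  have hSpw : ∀ p ∈ Pos, a * S ≤ Sp p := by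
    intro p hp
    have hweights := Pool.Agent.Y65.PE.weights m M L hm hM W hW0
      (fun θ _ => (Pool.Agent.Y328.PE.shiftMain d m M L Φ θ).1)
      (fun θ _ => (Pool.Agent.Y328.PE.shiftMain d m M L Φ θ).2) {p} (fun q hq => by
        rw [Finset.mem_singleton] at hq
        subst hq
        have := hPos q hp; constructor <;> omega)
    have hfilt : (Finset.univ : Finset (Til (m * M + 1) L)).filter
        (fun θ => Valid θ ∧ Blk m M (θ.1 0).2 (θ.2 0).2 ∧
            ((((θ.1 0).2 : ℕ) - 1) % m, (((θ.2 0).2 : ℕ) - 1) % m) ∈ ({p} : Finset (ℕ × ℕ))) =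
        V.filter (fun θ => bk θ ∧ pos θ = p) := by
      rw [hV, Finset.filter_filter]
      refine Finset.filter_congr fun θ _ => ?_
      rw [Finset.mem_singleton]
    rw [hfilt] at hweights
    rw [Finset.card_singleton, mul_one] at hweights
    rw [ha, div_mul_eq_mul_div, div_le_iff₀ hK]
    calc ((M * (M - 1) : ℕ) : ℝ) * S ≤ K * Sp p := hweights
      _ = Sp p * K := mul_comm _ _
  -- the expectation values
  set e : {p // p ∈ Pos} → ℂ := fun p => expecBlock Φ p.1 (hPos p.1 p.2) B with he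
  have he1 : ∀ p, ‖e p‖ ≤ 1 := fun p => by
    have := Pool.Agent.Y65.PE.boundBlock Φ p.1 (hPos p.1 p.2) B hBc
    rwa [hΦ] at this
  set G : Til (m * M + 1) L → Prop := fun θ => bk θ ∧ pos θ ∈ Pos with hG
  -- the good terms
  have hgood : ∑ θ ∈ V.filter G, expec (glob m M Φ θ) 0 B = ∑ p : {p // p ∈ Pos}, e p * (Sp p.1 : ℂ) := by
    have h1 : ∀ p : {p // p ∈ Pos}, e p * (Sp p.1 : ℂ) =
        ∑ θ ∈ V.filter (fun θ => bk θ ∧ pos θ = p.1), expec (glob m M Φ θ) 0 B := by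
      intro p
      rw [hSp]
      push_cast
      rw [Finset.mul_sum]
      refine Finset.sum_congr rfl fun θ hθ => ?_
      rw [Finset.mem_filter] at hθ
      obtain ⟨hθV, hblk, hp⟩ := hθ
      have hp' : pos θ ∈ Pos := by rw [hp]; exact p.2
      have h2 := Pool.Agent.Y297.PE.factor d m M L r hm hmL Φ hΦ θ ((hmemV θ).1 hθV) hblk
        (hPos _ hp') B
      rw [h2]
      have h3 : e p = e ⟨pos θ, hp'⟩ := by
        congr 1
        exact Subtype.ext hp.symm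
      rw [h3]
    rw [Finset.sum_congr rfl (fun p _ => h1 p)]
    rw [Finset.sum_coe_sort Pos (fun p => ∑ θ ∈ V.filter (fun θ => bk θ ∧ pos θ = p),
      expec (glob m M Φ θ) 0 B)]
    have h4 : ∀ p ∈ Pos, V.filter (fun θ => bk θ ∧ pos θ = p) = (V.filter G).filter (fun θ => pos θ = p) := by
      intro p hp
      ext θ
      simp only [Finset.mem_filter, hG]
      constructor
      · rintro ⟨h1, h2, h3⟩
        exact ⟨⟨h1, h2, by rw [h3]; exact hp⟩, h3⟩
      · rintro ⟨⟨h1, h2, _⟩, h3⟩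
        exact ⟨h1, h2, h3⟩
    have h5 : ∑ p ∈ Pos, ∑ θ ∈ V.filter (fun θ => bk θ ∧ pos θ = p), expec (glob m M Φ θ) 0 B =
        ∑ p ∈ Pos, ∑ θ ∈ (V.filter G).filter (fun θ => pos θ = p), expec (glob m M Φ θ) 0 B :=
      Finset.sum_congr rfl (fun p hp => by rw [h4 p hp])
    rw [h5]
    have h6 : ∀ θ ∈ V.filter G, pos θ ∈ Pos := fun θ hθ => (Finset.mem_filter.1 hθ).2.2
    exact (Finset.sum_fiberwise_of_maps_to h6 _).symm
  have hgoodW : ∑ θ ∈ V.filter G, W θ = ∑ p ∈ Pos, Sp p := by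
    have h4 : ∀ p ∈ Pos, V.filter (fun θ => bk θ ∧ pos θ = p) = (V.filter G).filter (fun θ => pos θ = p) := by
      intro p hp
      ext θ
      simp only [Finset.mem_filter, hG]
      constructor
      · rintro ⟨h1, h2, h3⟩
        exact ⟨⟨h1, h2, by rw [h3]; exact hp⟩, h3⟩
      · rintro ⟨⟨h1, h2, _⟩, h3⟩
        exact ⟨h1, h2, h3⟩
    have h5 : ∑ p ∈ Pos, Sp p =
        ∑ p ∈ Pos, ∑ θ ∈ (V.filter G).filter (fun θ => pos θ = p), W θ :=
      Finset.sum_congr rfl (fun p hp => by rw [hSp]; simp only; rw [h4 p hp])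
    rw [h5]
    have h6 : ∀ θ ∈ V.filter G, pos θ ∈ Pos := fun θ hθ => (Finset.mem_filter.1 hθ).2.2
    exact (Finset.sum_fiberwise_of_maps_to h6 _).symm
  have hbad : ‖∑ θ ∈ V.filter (fun θ => ¬ G θ), expec (glob m M Φ θ) 0 B‖ ≤
      ∑ θ ∈ V.filter (fun θ => ¬ G θ), W θ := by
    refine (norm_sum_le _ _).trans (Finset.sum_le_sum fun θ _ => ?_)
    exact Pool.Agent.Y65.PE.bound d L r hrL (glob m M Φ θ) 0 B hBc
  have hsplitW : S = (∑ θ ∈ V.filter G, W θ) + ∑ θ ∈ V.filter (fun θ => ¬ G θ), W θ :=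
    (Finset.sum_filter_add_sum_filter_not V G W).symm
  have hsplitE : expec (tot m M Φ L) 0 B = (∑ θ ∈ V.filter G, expec (glob m M Φ θ) 0 B) +
      ∑ θ ∈ V.filter (fun θ => ¬ G θ), expec (glob m M Φ θ) 0 B := by
    rw [hexp]
    exact (Finset.sum_filter_add_sum_filter_not V G _).symm
  have hS0 : (S : ℂ) ≠ 0 := by exact_mod_cast hSpos.ne'
  have hT0 : (T : ℂ) ≠ 0 := by exact_mod_cast hT.ne'
  have hnS : ‖(S : ℂ)‖ = S := by
    rw [Complex.norm_real, Real.norm_eq_abs, abs_of_pos hSpos]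
  have heq : expec (tot m M Φ L) 0 B / (nrm (tot m M Φ L) : ℂ) - (∑ p, e p) / (T : ℂ) =
      ((∑ p : {p // p ∈ Pos}, e p * (((Sp p.1 - S / T : ℝ)) : ℂ)) +
        ∑ θ ∈ V.filter (fun θ => ¬ G θ), expec (glob m M Φ θ) 0 B) / (S : ℂ) := by
    rw [hnrm, hsplitE, hgood]
    have h1 : ∑ p : {p // p ∈ Pos}, e p * (((Sp p.1 - S / T : ℝ)) : ℂ) =
        (∑ p : {p // p ∈ Pos}, e p * (Sp p.1 : ℂ)) - (∑ p, e p) * ((S : ℂ) / (T : ℂ)) := by
      rw [Finset.sum_mul, ← Finset.sum_sub_distrib]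
      refine Finset.sum_congr rfl fun p _ => ?_
      push_cast
      ring
    rw [h1]
    field_simp
    ring
  -- `a ≤ 1 / T`
  have haT : a ≤ 1 / T := by
    rw [ha, div_le_div_iff₀ hK hT, one_mul]
    have h1 : ((M * (M - 1) : ℕ) : ℝ) * (m : ℝ) ^ 2 ≤ K := by
      rw [hKdef]
      have h2 : M * (M - 1) * m ^ 2 ≤ (m * M + 2) ^ 2 := by
        calc M * (M - 1) * m ^ 2 ≤ M * M * m ^ 2 := by
              refine Nat.mul_le_mul_right _ (Nat.mul_le_mul_left _ (Nat.sub_le _ _))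
          _ = (m * M) ^ 2 := by ring
          _ ≤ (m * M + 2) ^ 2 := Nat.pow_le_pow_left (by omega) 2
      exact_mod_cast h2
    exact (mul_le_mul_of_nonneg_left hTm (by positivity)).trans h1
  have hterm : ∀ p ∈ Pos, |Sp p - S / T| ≤ (Sp p - a * S) + (S / T - a * S) := by
    intro p hp
    have h1 := hSpw p hp
    have h2 : a * S ≤ S / T := by
      calc a * S ≤ 1 / T * S := mul_le_mul_of_nonneg_right haT hSpos.le
        _ = S / T := by ring
    rw [abs_le]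
    constructor <;> linarith
  rw [heq, norm_div, hnS, div_le_iff₀ hSpos]
  have hb1 : ‖∑ p : {p // p ∈ Pos}, e p * (((Sp p.1 - S / T : ℝ)) : ℂ)‖ ≤
      ∑ p ∈ Pos, ((Sp p - a * S) + (S / T - a * S)) := by
    refine (norm_sum_le _ _).trans ?_
    rw [← Finset.sum_coe_sort Pos (fun p => (Sp p - a * S) + (S / T - a * S))]
    refine Finset.sum_le_sum fun p _ => ?_
    rw [norm_mul, Complex.norm_real, Real.norm_eq_abs]
    calc ‖e p‖ * |Sp p.1 - S / T| ≤ 1 * |Sp p.1 - S / T| :=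
          mul_le_mul_of_nonneg_right (he1 p) (abs_nonneg _)
      _ = |Sp p.1 - S / T| := one_mul _
      _ ≤ _ := hterm p.1 p.2
  have hsum : ∑ p ∈ Pos, ((Sp p - a * S) + (S / T - a * S)) =
      (∑ p ∈ Pos, Sp p) + Pos.card * (S / T - 2 * (a * S)) := by
    rw [Finset.sum_add_distrib, Finset.sum_sub_distrib, Finset.sum_const, Finset.sum_const,
      nsmul_eq_mul, nsmul_eq_mul]
    ring
  have hP : ((M * (M - 1) * Pos.card : ℕ) : ℝ) / K = a * Pos.card := by
    rw [ha]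
    push_cast
    ring
  refine (norm_add_le _ _).trans ?_
  refine (add_le_add hb1 hbad).trans ?_
  rw [hsum, hP, hgoodW.symm]
  have h7 : ∑ θ ∈ V.filter (fun θ => ¬ G θ), W θ = S - ∑ θ ∈ V.filter G, W θ := by
    rw [hsplitW]; ring
  rw [h7]
  exact arith _ _ _ _ _ hSpos hT hPT

end Pool.Agent.N650.TP
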